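import Pool.Agent.L7h71.GB.Stm

/-!
# Project GB: part LIM
-/

set_option autoImplicit false

namespace Pool.Agent.L7h75.GB

open Set Function
open Pool.Agent.L7h66.UA (XS XIso XYo XDich)
open Pool.Agent.L7h71.GB

/-- the points of the first `t + 1` lists of stage `t` -/
def PP (l : ℕ → ℕ → List ℕ) (t : ℕ) : Finset ℕ :=
  (Finset.range (t + 1)).biUnion fun i => (l t i).toFinset

theorem mem_PP (l : ℕ → ℕ → List ℕ) (t p : ℕ) : p ∈ PP l t ↔ ∃ i ≤ t, p ∈ l t i := by
  simp only [PP, Finset.mem_biUnion, Finset.mem_range, List.mem_toFinset, Nat.lt_succ_iff]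

/-- the enumerations -/
noncomputable def LL (l : ℕ → ℕ → List ℕ) (E : ℕ → ℕ → ℕ) : ℕ → List ℕ
  | 0 => (PP l 0).toList
  | t + 1 => (LL l E t).map (E t) ++ (PP l (t + 1) \ (PP l t).image (E t)).toList

theorem LL_spec (l : ℕ → ℕ → List ℕ) (E : ℕ → ℕ → ℕ)
    (hinj : ∀ t, InjOn (E t) {p | ∃ i ≤ t, p ∈ l t i})
    (hmap : ∀ t, ∀ p ∈ PP l t, E t p ∈ PP l (t + 1)) (t : ℕ) :
    (LL l E t).Nodup ∧ ∀ p, p ∈ LL l E t ↔ p ∈ PP l t := by
  induction t with
  | zero => exact ⟨Finset.nodup_toList _, fun p => Finset.mem_toList⟩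
  | succ t ih =>
    obtain ⟨h1, h2⟩ := ih
    constructor
    · rw [LL, List.nodup_append']
      refine ⟨?_, Finset.nodup_toList _, ?_⟩
      · apply List.Nodup.map_on _ h1
        intro x hx y hy hxy
        exact hinj t ((mem_PP l t x).1 ((h2 x).1 hx)) ((mem_PP l t y).1 ((h2 y).1 hy)) hxy
      · intro x hx hx'
        rw [Finset.mem_toList, Finset.mem_sdiff] at hx'
        apply hx'.2
        obtain ⟨y, hy, rfl⟩ := List.mem_map.1 hx
        exact Finset.mem_image_of_mem _ ((h2 y).1 hy)
    · intro p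
      rw [LL, List.mem_append, Finset.mem_toList, Finset.mem_sdiff, List.mem_map]
      constructor
      · rintro (⟨y, hy, rfl⟩ | h)
        · exact hmap t y ((h2 y).1 hy)
        · exact h.1
      · intro h
        by_cases h3 : p ∈ (PP l t).image (E t)
        · left
          obtain ⟨y, hy, rfl⟩ := Finset.mem_image.1 h3
          exact ⟨y, (h2 y).2 hy, rfl⟩
        · exact Or.inr ⟨h, h3⟩

theorem s_LIM : S_LIM := by
  intro a K M l hl hn
  choose E hE hE' using fun t => hl t (t + 1) (Nat.le_succ t)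
  have hmap : ∀ t, ∀ p ∈ PP l t, E t p ∈ PP l (t + 1) := by
    intro t p hp
    obtain ⟨i, hi, hp⟩ := (mem_PP l t p).1 hp
    exact (mem_PP l (t + 1) _).2 ⟨i, by omega, (hE' t i hi).mem_iff.1 (List.mem_map_of_mem hp)⟩
  have hspec := LL_spec l E (fun t => (hE t).1) hmap
  -- the numbers of the points
  let n : ℕ → ℕ := fun t => (LL l E t).length
  have hn1 : ∀ t, n t ≤ n (t + 1) := by
    intro t
    show (LL l E t).length ≤ (LL l E (t + 1)).length
    rw [LL, List.length_append, List.length_map]
    omega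
  have hmono : Monotone n := monotone_nat_of_le_succ hn1
  have hunb : ∀ m, ∃ t, m < n t := by
    intro m
    obtain ⟨t, s, hs, hs'⟩ := hn (m + 1)
    refine ⟨t, ?_⟩
    have h1 : s ⊆ (LL l E t).toFinset := by
      intro p hp
      rw [List.mem_toFinset, (hspec t).2, mem_PP]
      exact hs' p hp
    have h2 := Finset.card_le_card h1
    have h3 := (LL l E t).toFinset_card_le
    show m < (LL l E t).length
    omega
  -- the bijections
  let g : ℕ → ℕ → ℕ := fun t k => (LL l E t).getD k 0
  have hg : ∀ t k, k < n t → g (t + 1) k = E t (g t k) := by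
    intro t k hk
    have hk' : k < (LL l E t).length := hk
    show (LL l E (t + 1)).getD k 0 = E t ((LL l E t).getD k 0)
    rw [LL, List.getD_append _ _ _ _ (by rw [List.length_map]; exact hk')]
    rw [List.getD_eq_getElem _ _ (by rw [List.length_map]; exact hk'), List.getElem_map,
      List.getD_eq_getElem _ _ hk']
  have hgm : ∀ t k, k < n t → g t k ∈ PP l t := by
    intro t k hk
    have hk' : k < (LL l E t).length := hk
    show (LL l E t).getD k 0 ∈ PP l t
    rw [List.getD_eq_getElem _ _ hk', ← (hspec t).2]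
    exact List.getElem_mem _
  have hginj : ∀ t k k', k < n t → k' < n t → g t k = g t k' → k = k' := by
    intro t k k' hk hk' h
    have hk1 : k < (LL l E t).length := hk
    have hk1' : k' < (LL l E t).length := hk'
    have h' : (LL l E t).getD k 0 = (LL l E t).getD k' 0 := h
    rw [List.getD_eq_getElem _ _ hk1, List.getD_eq_getElem _ _ hk1'] at h'
    exact ((hspec t).1.getElem_inj_iff).1 h'
  have hstep : ∀ t t', t ≤ t' → ∀ i (x : Fin (a i) → ℕ), (∀ j, x j < n t) →
      M i (g t' ∘ x) = M i (g t ∘ x) := by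
    intro t t' htt
    induction t', htt using Nat.le_induction with
    | base => intro i x _; rfl
    | succ t' htt ih =>
      intro i x hx
      rw [← ih i x hx]
      have h1 : g (t' + 1) ∘ x = E t' ∘ (g t' ∘ x) := by
        funext j
        exact hg t' (x j) (lt_of_lt_of_le (hx j) (hmono htt))
      rw [h1]
      exact (hE t').2 i _ fun j => (mem_PP l t' _).1 (hgm t' _ (lt_of_lt_of_le (hx j) (hmono htt)))
  choose T hT using hunb
  let N : XS a K ℕ := fun i x => M i (g (T (Finset.univ.sup x)) ∘ x)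
  have hN : ∀ t i (x : Fin (a i) → ℕ), (∀ j, x j < n t) → N i x = M i (g t ∘ x) := by
    intro t i x hx
    have hx' : ∀ j, x j < n (T (Finset.univ.sup x)) := fun j =>
      lt_of_le_of_lt (Finset.le_sup (Finset.mem_univ j)) (hT _)
    show M i (g (T (Finset.univ.sup x)) ∘ x) = _
    rcases le_total t (T (Finset.univ.sup x)) with h | h
    · exact hstep _ _ h i x hx
    · exact (hstep _ _ h i x hx').symm
  let c : ℕ → List ℕ := fun i => (l i i).map fun q => (LL l E i).idxOf q
  have hci : ∀ i, ∀ p ∈ c i, p < n i := by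
    intro i p hp
    obtain ⟨q, hq, rfl⟩ := List.mem_map.1 hp
    exact List.idxOf_lt_length_iff.2 (((hspec i).2 q).2 ((mem_PP l i q).2 ⟨i, le_refl i, hq⟩))
  have hc : ∀ i t, i ≤ t → ((c i).map (g t)).Perm (l t i) := by
    intro i t hit
    induction t, hit using Nat.le_induction with
    | base =>
      have h1 : (c i).map (g i) = l i i := by
        show ((l i i).map fun q => (LL l E i).idxOf q).map (g i) = l i i
        rw [List.map_map]
        conv_rhs => rw [← List.map_id (l i i)]
        apply List.map_congr_left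
        intro q hq
        have h2 : q ∈ LL l E i := ((hspec i).2 q).2 ((mem_PP l i q).2 ⟨i, le_refl i, hq⟩)
        show (LL l E i).getD ((LL l E i).idxOf q) 0 = q
        rw [List.getD_eq_getElem _ _ (List.idxOf_lt_length_iff.2 h2), List.getElem_idxOf]
      rw [h1]
    | succ t hit ih =>
      have h1 : (c i).map (g (t + 1)) = ((c i).map (g t)).map (E t) := by
        refine Eq.trans ?_ (List.map_map (f := g t) (g := E t) (l := c i)).symm
        apply List.map_congr_left
        intro p hp
        exact hg t p (lt_of_lt_of_le (hci i p hp) (hmono hit))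
      rw [h1]
      exact (ih.map (E t)).trans (hE' t i hit)
  refine ⟨N, c, ?_, ?_⟩
  · intro x
    obtain ⟨i, hi, hx⟩ := (mem_PP l (T x) _).1 (hgm (T x) x (hT x))
    obtain ⟨y, hy, hxy⟩ := List.mem_map.1 ((hc i (T x) hi).mem_iff.2 hx)
    have h1 : y < n (T x) := lt_of_lt_of_le (hci i y hy) (hmono hi)
    have h2 := hginj (T x) y x h1 (hT x) hxy
    exact ⟨i, h2 ▸ hy⟩
  · intro t
    have hlt : ∀ p ∈ {p | ∃ i ≤ t, p ∈ c i}, p < n t := by
      rintro p ⟨i, hi, hp⟩
      exact lt_of_lt_of_le (hci i p hp) (hmono hi)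
    refine ⟨g t, ⟨?_, ?_⟩, fun i hi => hc i t hi⟩
    · intro x hx y hy hxy
      exact hginj t x y (hlt x hx) (hlt y hy) hxy
    · intro i x hx
      exact (hN t i x fun j => hlt _ (hx j)).symm

end Pool.Agent.L7h75.GB
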