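import Pool.Agent.L7h71.GB.Stm

/-!
# Project GB: part TAU
-/

set_option autoImplicit false

namespace Pool.Agent.L7h75.GB

open Set Function MeasureTheory
open Pool.Agent.L7h66.UA (XS XIso XYo XDich)
open Pool.Agent.L7h71.GB

theorem finite_perms {α : Type} (ls : List (List α)) :
    {ls' : List (List α) | List.Forall₂ List.Perm ls' ls}.Finite := by
  classical
  induction ls with
  | nil =>
    apply (Set.finite_singleton ([] : List (List α))).subset
    intro x hx
    exact List.forall₂_nil_right_iff.1 hx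
  | cons l ls ih =>
    have h1 : {l' : List α | l'.Perm l}.Finite := by
      apply (List.finite_toSet l.permutations).subset
      intro x hx
      exact List.mem_permutations.2 hx
    apply ((h1.prod ih).image fun p : List α × List (List α) => p.1 :: p.2).subset
    intro x hx
    obtain ⟨a, u, h2, h3, rfl⟩ := List.forall₂_cons_right_iff.1 hx
    exact ⟨(a, u), ⟨h2, h3⟩, rfl⟩

theorem forall₂_perm_refl {α : Type} (ls : List (List α)) : List.Forall₂ List.Perm ls ls :=
  List.forall₂_same.2 fun _ _ => List.Perm.refl _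

theorem forall₂_comp {α β γ δ : Type} {R : α → β → Prop} {S : γ → δ → Prop} {T : β → δ → Prop}
    (f : α → γ) (h : ∀ a b d, R a b → S (f a) d → T b d) :
    ∀ (l₁ : List α) (l : List β) (l' : List δ), List.Forall₂ R l₁ l →
      List.Forall₂ S (l₁.map f) l' → List.Forall₂ T l l' := by
  intro l₁
  induction l₁ with
  | nil =>
    intro l l' h1 h2
    rw [List.forall₂_nil_left_iff] at h1
    rw [List.map_nil, List.forall₂_nil_left_iff] at h2
    subst h1; subst h2
    exact List.Forall₂.nil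
  | cons a l₁ ih =>
    intro l l' h1 h2
    obtain ⟨b, u, h3, h4, rfl⟩ := List.forall₂_cons_left_iff.1 h1
    rw [List.map_cons] at h2
    obtain ⟨d, v, h5, h6, rfl⟩ := List.forall₂_cons_left_iff.1 h2
    exact List.Forall₂.cons (h a b d h3 h5) (ih u v h4 h6)

section

variable {a : ℕ → ℕ} {K : ℕ → Type} [∀ i, MeasurableSpace (K i)] [∀ i, StandardBorelSpace (K i)]

/-- the set of the values -/
def VS (M : XS a K ℕ) (ls : List (List ℕ)) : Set ℝ :=
  {r | ∃ ls', List.Forall₂ List.Perm ls' ls ∧ vl M ls' = r}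

theorem VS_finite (M : XS a K ℕ) (ls : List (List ℕ)) : (VS M ls).Finite := by
  apply ((finite_perms ls).image fun ls' => vl M ls').subset
  rintro r ⟨ls', h1, h2⟩
  exact ⟨ls', h1, h2⟩

theorem tau_mem (M : XS a K ℕ) (ls : List (List ℕ)) :
    ∃ ls', List.Forall₂ List.Perm ls' ls ∧ vl M ls' = tau M ls := by
  have h1 : (VS M ls).Nonempty := ⟨_, ls, forall₂_perm_refl ls, rfl⟩
  exact h1.csInf_mem (VS_finite M ls)

theorem mem_union_flatten (ls : List (List ℕ)) (p : ℕ) :
    p ∈ {p | ∃ l ∈ ls, p ∈ l} ↔ p ∈ ls.flatten := by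
  rw [List.mem_flatten]
  exact Iff.rfl

theorem flatten_ne {ls : List (List ℕ)} (h : ls ≠ []) (h' : ∀ l ∈ ls, l ≠ []) : ls.flatten ≠ [] := by
  obtain ⟨l, ls', rfl⟩ := List.exists_cons_of_ne_nil h
  obtain ⟨x, l', rfl⟩ := List.exists_cons_of_ne_nil (h' l (by simp))
  simp

theorem pt_mem {l : List ℕ} (h : l ≠ []) (s : ℕ) : pt l s ∈ l := by
  obtain ⟨x, l', rfl⟩ := List.exists_cons_of_ne_nil h
  unfold pt
  by_cases hs : s < (x :: l').length
  · rw [List.getD_eq_getElem _ _ hs]
    exact List.getElem_mem _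
  · rw [List.getD_eq_default _ _ (by omega)]
    simp

theorem pt_map {l : List ℕ} (h : l ≠ []) (e : ℕ → ℕ) (s : ℕ) : pt (l.map e) s = e (pt l s) := by
  obtain ⟨x, l', rfl⟩ := List.exists_cons_of_ne_nil h
  unfold pt
  by_cases hs : s < (x :: l').length
  · rw [List.getD_eq_getElem _ _ hs, List.getD_eq_getElem _ _ (by rw [List.length_map]; exact hs),
      List.getElem_map]
  · rw [List.getD_eq_default _ _ (by rw [List.length_map]; omega),
      List.getD_eq_default _ _ (by omega)]
    simp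

theorem pt_idxOf {l : List ℕ} {x : ℕ} (hx : x ∈ l) : pt l (l.idxOf x) = x := by
  unfold pt
  rw [List.getD_eq_getElem _ _ (List.idxOf_lt_length_iff.2 hx), List.getElem_idxOf]

theorem forall₂_mem {α β : Type} {R : α → β → Prop} {l : List α} {l' : List β}
    (h : List.Forall₂ R l l') : ∀ x ∈ l, ∃ y ∈ l', R x y := by
  induction h with
  | nil => intro x hx; simp at hx
  | cons h1 _ ih =>
    intro x hx
    rcases List.mem_cons.1 hx with rfl | hx
    · exact ⟨_, by simp, h1⟩
    · obtain ⟨y, hy, hy'⟩ := ih x hx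
      exact ⟨y, List.mem_cons_of_mem _ hy, hy'⟩

theorem dg_map {M N : XS a K ℕ} {e : ℕ → ℕ} {ls ls₁ : List (List ℕ)} (hls : ls ≠ [])
    (hne : ∀ l ∈ ls, l ≠ []) (he : Emb M N e {p | ∃ l ∈ ls, p ∈ l})
    (h₁ : List.Forall₂ List.Perm ls₁ ls) : dg N (ls₁.map (List.map e)) = dg M ls₁ := by
  have h2 : ls₁ ≠ [] := by
    rintro rfl
    exact hls (List.forall₂_nil_left_iff.1 h₁)
  have h3 : ∀ l ∈ ls₁, l ≠ [] := by
    intro l hl
    obtain ⟨l', hl', hp⟩ := forall₂_mem h₁ l hl
    rintro rfl
    exact hne l' hl' (List.nil_perm.1 hp)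
  have h4 := flatten_ne h2 h3
  have h5 : ∀ p ∈ ls₁.flatten, p ∈ {p | ∃ l ∈ ls, p ∈ l} := by
    intro p hp
    obtain ⟨l, hl, hp⟩ := List.mem_flatten.1 hp
    obtain ⟨l', hl', hp'⟩ := forall₂_mem h₁ l hl
    exact ⟨l', hl', hp'.mem_iff.1 hp⟩
  have h6 : ∀ s, pt (ls₁.map (List.map e)).flatten s = e (pt ls₁.flatten s) := by
    intro s
    rw [← List.map_flatten, pt_map h4]
  unfold dg
  refine Prod.ext ?_ (Prod.ext ?_ ?_)
  · funext s
    show (List.map List.length (List.map (List.map e) ls₁)).getD s 0 =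
      (List.map List.length ls₁).getD s 0
    rw [List.map_map]
    congr 1
    apply List.map_congr_left
    intro l _
    simp
  · funext s s'
    show decide (pt (ls₁.map (List.map e)).flatten s = pt (ls₁.map (List.map e)).flatten s') =
      decide (pt ls₁.flatten s = pt ls₁.flatten s')
    rw [h6, h6]
    apply decide_eq_decide.2
    constructor
    · intro h
      exact he.1 (h5 _ (pt_mem h4 s)) (h5 _ (pt_mem h4 s')) h
    · intro h
      rw [h]
  · funext i t
    show (N i fun j => pt (ls₁.map (List.map e)).flatten (t j)) = M i fun j => pt ls₁.flatten (t j)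
    have h7 : (fun j => pt (ls₁.map (List.map e)).flatten (t j)) =
        e ∘ fun j => pt ls₁.flatten (t j) := funext fun j => h6 _
    rw [h7]
    exact he.2 i _ fun j => h5 _ (pt_mem h4 _)

theorem VS_sub {M N : XS a K ℕ} {e : ℕ → ℕ} {ls ls' : List (List ℕ)} (hls : ls ≠ [])
    (hne : ∀ l ∈ ls, l ≠ []) (he : Emb M N e {p | ∃ l ∈ ls, p ∈ l})
    (h : List.Forall₂ (fun l l' => (l.map e).Perm l') ls ls') : VS M ls ⊆ VS N ls' := by
  rintro r ⟨ls₁, h₁, rfl⟩
  refine ⟨ls₁.map (List.map e), ?_, ?_⟩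
  · have h2 : List.Forall₂ (fun l l₁ => List.Perm l₁ l) ls ls₁ := h₁.flip
    have h3 : List.Forall₂ (fun l' l => (l.map e).Perm l') ls' ls := h.flip
    have key : ∀ (u v w : List (List ℕ)), List.Forall₂ List.Perm u v →
        List.Forall₂ (fun l l' => (l.map e).Perm l') v w →
        List.Forall₂ List.Perm (u.map (List.map e)) w := by
      intro u v w huv
      induction huv generalizing w with
      | nil =>
        intro hw
        rw [List.forall₂_nil_left_iff] at hw
        subst hw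
        exact List.Forall₂.nil
      | cons h1 _ ih =>
        intro hw
        obtain ⟨b, w', h3, h4, rfl⟩ := List.forall₂_cons_left_iff.1 hw
        exact List.Forall₂.cons ((h1.map e).trans h3) (ih w' h4)
    exact key _ _ _ h₁ h
  · show embeddingReal _ (dg N _) = embeddingReal _ (dg M _)
    rw [dg_map hls hne he h₁]

theorem inv_emb {M N : XS a K ℕ} {e : ℕ → ℕ} {ls ls' : List (List ℕ)}
    (he : Emb M N e {p | ∃ l ∈ ls, p ∈ l})
    (h : List.Forall₂ (fun l l' => (l.map e).Perm l') ls ls') :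
    ∃ e' : ℕ → ℕ, Emb N M e' {p | ∃ l ∈ ls', p ∈ l} ∧
      List.Forall₂ (fun l l' => (l.map e').Perm l') ls' ls := by
  have hinv : ∀ x ∈ {p | ∃ l ∈ ls, p ∈ l}, invFunOn e {p | ∃ l ∈ ls, p ∈ l} (e x) = x :=
    fun x hx => he.1.leftInvOn_invFunOn hx
  have hsur : ∀ y ∈ {p | ∃ l ∈ ls', p ∈ l}, ∃ x ∈ {p | ∃ l ∈ ls, p ∈ l}, e x = y := by
    rintro y ⟨l', hl', hy⟩
    obtain ⟨l, hl, hp⟩ := forall₂_mem h.flip l' hl'
    obtain ⟨x, hx, hxy⟩ := List.mem_map.1 (hp.mem_iff.2 hy)
    exact ⟨x, ⟨l, hl, hx⟩, hxy⟩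
  refine ⟨invFunOn e {p | ∃ l ∈ ls, p ∈ l}, ⟨?_, ?_⟩, ?_⟩
  · intro y hy y' hy' hyy
    obtain ⟨x, hx, rfl⟩ := hsur y hy
    obtain ⟨x', hx', rfl⟩ := hsur y' hy'
    rw [hinv x hx, hinv x' hx'] at hyy
    rw [hyy]
  · intro i y hy
    choose x hx hxy using fun j => hsur (y j) (hy j)
    have h1 : y = e ∘ x := funext fun j => (hxy j).symm
    rw [h1, he.2 i x hx]
    congr 1
    funext j
    exact hinv _ (hx j)
  · have key : ∀ (u v : List (List ℕ)), (∀ l ∈ u, l ∈ ls) →
        List.Forall₂ (fun l l' => (l.map e).Perm l') u v →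
        List.Forall₂ (fun l l' => (l.map (invFunOn e {p | ∃ l ∈ ls, p ∈ l})).Perm l') v u := by
      intro u v hu huv
      induction huv with
      | nil => exact List.Forall₂.nil
      | cons h1 _ ih =>
        refine List.Forall₂.cons ?_ (ih fun l hl => hu l (List.mem_cons_of_mem _ hl))
        refine (h1.symm.map _).trans ?_
        rw [List.map_map]
        have h2 : ∀ (l : List ℕ), l ∈ ls →
            l.map (invFunOn e {p | ∃ l ∈ ls, p ∈ l} ∘ e) = l := by
          intro l hl
          conv_rhs => rw [← List.map_id l]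
          apply List.map_congr_left
          intro q hq
          exact hinv q ⟨l, hl, hq⟩
        rw [h2 _ (hu _ (by simp))]
    exact key ls ls' (fun _ h => h) h

theorem emb_of_dg {M N : XS a K ℕ} {ls₁ ls₂ : List (List ℕ)} (hne : ls₁.flatten ≠ [])
    (hlen : ls₁.length = ls₂.length) (h : dg M ls₁ = dg N ls₂) :
    ∃ e : ℕ → ℕ, Emb M N e {p | p ∈ ls₁.flatten} ∧ ls₁.map (List.map e) = ls₂ := by
  unfold dg at h
  obtain ⟨h1, h2⟩ := Prod.mk.inj h
  obtain ⟨h2, h3⟩ := Prod.mk.inj h2
  have hl : ls₁.map List.length = ls₂.map List.length := by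
    apply List.ext_getElem (by rw [List.length_map, List.length_map, hlen])
    intro n hn hn'
    have h4 := congrFun h1 n
    rw [List.getD_eq_getElem _ _ hn, List.getD_eq_getElem _ _ hn'] at h4
    exact h4
  have hlen' : ls₁.flatten.length = ls₂.flatten.length := by
    rw [List.length_flatten, List.length_flatten, hl]
  have heq : ∀ s s', pt ls₁.flatten s = pt ls₁.flatten s' ↔ pt ls₂.flatten s = pt ls₂.flatten s' := by
    intro s s'
    exact decide_eq_decide.1 (congrFun (congrFun h2 s) s')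
  let e : ℕ → ℕ := fun x => pt ls₂.flatten (ls₁.flatten.idxOf x)
  have he : ∀ s, e (pt ls₁.flatten s) = pt ls₂.flatten s := by
    intro s
    exact (heq _ _).1 (pt_idxOf (pt_mem hne s))
  have hex : ∀ x ∈ ls₁.flatten, ∃ s, pt ls₁.flatten s = x := fun x hx => ⟨_, pt_idxOf hx⟩
  refine ⟨e, ⟨?_, ?_⟩, ?_⟩
  · intro x hx y hy hxy
    obtain ⟨s, rfl⟩ := hex x hx
    obtain ⟨s', rfl⟩ := hex y hy
    rw [he, he] at hxy
    exact (heq s s').2 hxy
  · intro i x hx
    choose t ht using fun j => hex (x j) (hx j)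
    have h4 : x = fun j => pt ls₁.flatten (t j) := funext fun j => (ht j).symm
    have h5 : e ∘ x = fun j => pt ls₂.flatten (t j) := by
      funext j
      show e (x j) = _
      rw [← ht j, he]
    rw [h5, h4]
    exact (congrFun (congrFun h3 i) t).symm
  · rw [List.eq_iff_flatten_eq]
    constructor
    · rw [← List.map_flatten]
      apply List.ext_getElem (by rw [List.length_map, hlen'])
      intro n hn hn'
      rw [List.getElem_map]
      have hn1 : n < ls₁.flatten.length := by rw [List.length_map] at hn; exact hn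
      have h6 := he n
      unfold pt at h6
      rw [List.getD_eq_getElem _ _ hn1, List.getD_eq_getElem _ _ hn'] at h6
      exact h6
    · rw [← hl, List.map_map]
      apply List.map_congr_left
      intro l _
      simp

end

theorem s_TAU : S_TAU := by
  intro a K _ _ M N ls ls' hls hlen hne hne'
  have hls' : ls' ≠ [] := by
    rintro rfl
    exact hls (List.length_eq_zero_iff.1 hlen)
  constructor
  · intro h
    obtain ⟨ls₁, h1, h1'⟩ := tau_mem M ls
    obtain ⟨ls₂, h2, h2'⟩ := tau_mem N ls'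
    have h3 : vl M ls₁ = vl N ls₂ := by rw [h1', h2', h]
    have h4 : dg M ls₁ = dg N ls₂ := (measurableEmbedding_embeddingReal _).injective h3
    have h5 : ls₁ ≠ [] := by
      rintro rfl
      exact hls (List.forall₂_nil_left_iff.1 h1)
    have h6 : ∀ l ∈ ls₁, l ≠ [] := by
      intro l hl
      obtain ⟨l', hl', hp⟩ := forall₂_mem h1 l hl
      rintro rfl
      exact hne l' hl' (List.nil_perm.1 hp)
    obtain ⟨e, he, he'⟩ := emb_of_dg (flatten_ne h5 h6)
      (h1.length_eq.trans (hlen.trans h2.length_eq.symm)) h4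
    refine ⟨e, ⟨?_, ?_⟩, ?_⟩
    · have hsub : {p | ∃ l ∈ ls, p ∈ l} ⊆ {p | p ∈ ls₁.flatten} := by
        rintro p ⟨l, hl, hp⟩
        obtain ⟨l', hl', hp'⟩ := forall₂_mem h1.flip l hl
        exact List.mem_flatten.2 ⟨l', hl', hp'.mem_iff.2 hp⟩
      exact he.1.mono hsub
    · intro i x hx
      apply he.2 i x
      intro j
      obtain ⟨l, hl, hp⟩ := hx j
      obtain ⟨l', hl', hp'⟩ := forall₂_mem h1.flip l hl
      exact List.mem_flatten.2 ⟨l', hl', hp'.mem_iff.2 hp⟩
    · rw [← he'] at h2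
      exact forall₂_comp (R := List.Perm) (S := List.Perm) (T := fun l l' => (l.map e).Perm l')
        (List.map e) (fun u v w huv huw => (huv.symm.map e).trans huw) ls₁ ls ls' h1 h2
  · rintro ⟨e, he, h⟩
    obtain ⟨e', he', h'⟩ := inv_emb he h
    have h1 : VS M ls = VS N ls' :=
      Subset.antisymm (VS_sub hls hne he h) (VS_sub hls' hne' he' h')
    exact congrArg sInf h1

end Pool.Agent.L7h75.GB
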