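import Pool.Agent.L7h71.GB.Stm3

/-!
# Project GB: part TIN
-/

set_option autoImplicit false

namespace Pool.Agent.L7h75.GB

open Set Function
open Pool.Agent.L7h66.UA (S_LRC)
open Pool.Agent.L7h71.GB

/-- the permutation acting on the numbers `≥ m` -/
def shf (m : ℕ) (σ : Equiv.Perm ℕ) (n : ℕ) : ℕ := if n < m then n else m + σ (n - m)

theorem shf_lt {m : ℕ} (σ : Equiv.Perm ℕ) {n : ℕ} (h : n < m) : shf m σ n = n := if_pos h

theorem shf_ge {m : ℕ} (σ : Equiv.Perm ℕ) {n : ℕ} (h : ¬ n < m) : shf m σ n = m + σ (n - m) :=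
  if_neg h

theorem shf_mul (m : ℕ) (σ τ : Equiv.Perm ℕ) (n : ℕ) : shf m σ (shf m τ n) = shf m (σ * τ) n := by
  by_cases h : n < m
  · rw [shf_lt _ h, shf_lt _ h, shf_lt _ h]
  · rw [shf_ge _ h, shf_ge _ h, shf_ge _ (by omega), Nat.add_sub_cancel_left, Equiv.Perm.mul_apply]

theorem shf_one (m n : ℕ) : shf m 1 n = n := by
  by_cases h : n < m
  · exact shf_lt _ h
  · rw [shf_ge _ h, Equiv.Perm.one_apply]
    omega

/-- the embedding of `Sym(ℕ)` -/
def io (m : ℕ) : Equiv.Perm ℕ →* Equiv.Perm ℕ where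
  toFun σ :=
    { toFun := shf m σ
      invFun := shf m σ⁻¹
      left_inv := fun n => by rw [shf_mul, inv_mul_cancel, shf_one]
      right_inv := fun n => by rw [shf_mul, mul_inv_cancel, shf_one] }
  map_one' := Equiv.ext fun n => shf_one m n
  map_mul' σ τ := Equiv.ext fun n => (shf_mul m σ τ n).symm

theorem io_apply (m : ℕ) (σ : Equiv.Perm ℕ) (n : ℕ) : io m σ n = shf m σ n := rfl

theorem io_lt (m : ℕ) (σ : Equiv.Perm ℕ) : ∀ i < m, io m σ i = i := fun _ hi => shf_lt σ hi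

theorem io_surj (m : ℕ) (τ : Equiv.Perm ℕ) (h : ∀ i < m, τ i = i) : ∃ σ, io m σ = τ := by
  have h1 : ∀ τ : Equiv.Perm ℕ, (∀ i < m, τ i = i) → ∀ n, m ≤ τ (m + n) := by
    intro τ h n
    by_contra hn
    have h2 := h (τ (m + n)) (by omega)
    have h3 := τ.injective h2
    omega
  have h' : ∀ i < m, τ⁻¹ i = i := by
    intro i hi
    rw [Equiv.Perm.inv_eq_iff_eq]
    exact (h i hi).symm
  refine ⟨{ toFun := fun n => τ (m + n) - m
            invFun := fun n => τ⁻¹ (m + n) - m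
            left_inv := fun n => ?_
            right_inv := fun n => ?_ }, ?_⟩
  · show τ⁻¹ (m + (τ (m + n) - m)) - m = n
    have h2 : m + (τ (m + n) - m) = τ (m + n) := by have := h1 τ h n; omega
    have h4 : τ⁻¹ (τ (m + n)) = m + n := τ.symm_apply_apply _
    rw [h2, h4]
    omega
  · show τ (m + (τ⁻¹ (m + n) - m)) - m = n
    have h2 : m + (τ⁻¹ (m + n) - m) = τ⁻¹ (m + n) := by have := h1 τ⁻¹ h' n; omega
    have h4 : τ (τ⁻¹ (m + n)) = m + n := τ.apply_symm_apply _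
    rw [h2, h4]
    omega
  · apply Equiv.ext
    intro n
    rw [io_apply]
    by_cases hn : n < m
    · rw [shf_lt _ hn, h n hn]
    · rw [shf_ge _ hn]
      show m + (τ (m + (n - m)) - m) = τ n
      have h2 : m + (n - m) = n := by omega
      have h3 := h1 τ h (n - m)
      rw [h2] at h3 ⊢
      omega

section

variable {G X : Type} [Group G] [MulAction G X] (φ : Equiv.Perm ℕ →* G)

/-- the set of the points whose orbit stays in `C` -/
def CC (C : Set X) (m : ℕ) : Set X :=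
  {x | ∀ τ : Equiv.Perm ℕ, (∀ i < m, τ i = i) → φ τ • x ∈ C}

theorem CC_smul {C : Set X} {m : ℕ} {x : X} (hx : x ∈ CC φ C m) (σ : Equiv.Perm ℕ) :
    φ (io m σ) • x ∈ CC φ C m := by
  intro τ hτ
  rw [smul_smul, ← map_mul]
  apply hx
  intro i hi
  rw [Equiv.Perm.mul_apply, io_lt m σ i hi, hτ i hi]

/-- the action on `CC` -/
@[implicit_reducible]
def act (C : Set X) (m : ℕ) : MulAction (Equiv.Perm ℕ) (CC φ C m) where
  smul σ x := ⟨φ (io m σ) • x.1, CC_smul φ x.2 σ⟩
  one_smul x := Subtype.ext (by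
    show φ (io m 1) • x.1 = x.1
    rw [map_one, map_one, one_smul])
  mul_smul σ τ x := Subtype.ext (by
    show φ (io m (σ * τ)) • x.1 = φ (io m σ) • φ (io m τ) • x.1
    rw [map_mul, map_mul, mul_smul])

end

theorem s_TIN : S_TIN := by
  classical
  intro hL G X _ _ _ _ _ _ φ hA C hC m
  let _ : MulAction (Equiv.Perm ℕ) (CC φ C m) := act φ C m
  have hclosed : IsClosed (CC φ C m) := by
    have h1 : CC φ C m = ⋂ τ : Equiv.Perm ℕ, ⋂ _ : (∀ i < m, τ i = i), (fun x : X => φ τ • x) ⁻¹' C := by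
      ext x
      simp only [CC, mem_ofPred_eq, mem_iInter, mem_preimage]
    rw [h1]
    exact isClosed_iInter fun τ => isClosed_iInter fun _ => hC.isClosed.preimage (hA.cont _)
  have hsub : CC φ C m ⊆ C := by
    intro x hx
    have := hx 1 fun _ _ => rfl
    rwa [map_one, one_smul] at this
  have hcomp : IsCompact (CC φ C m) := hC.of_isClosed_subset hclosed hsub
  have : CompactSpace (CC φ C m) := isCompact_iff_compactSpace.1 hcomp
  have hc : Pool.Agent.L7h71.UA.Top.ContAct (CC φ C m) := by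
    intro g x U hU hx
    obtain ⟨U', hU', rfl⟩ := isOpen_induced_iff.1 hU
    obtain ⟨F, V, hV, hxV, h⟩ := hA.act (io m g) x.1 U' hU' hx
    refine ⟨F.image fun n => n - m, Subtype.val ⁻¹' V, hV.preimage continuous_subtype_val, hxV, ?_⟩
    intro k hk y hy
    show φ (io m k) • y.1 ∈ U'
    apply h _ _ _ hy
    intro n hn
    rw [io_apply, io_apply]
    by_cases hnm : n < m
    · rw [shf_lt _ hnm, shf_lt _ hnm]
    · rw [shf_ge _ hnm, shf_ge _ hnm, hk _ (Finset.mem_image_of_mem _ hn)]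
  rcases Pool.Agent.L7h71.UA.Top.top hc hL (fun _ => univ) (fun _ => isClosed_univ) (by
    intro g x _
    exact mem_iUnion.2 ⟨0, mem_univ _⟩) with ⟨D, hD, h⟩ | ⟨f, hf, -, h⟩
  · left
    refine ⟨Subtype.val '' D, hD.image _, fun x hx => ?_⟩
    obtain ⟨y, hy, g, hg⟩ := h ⟨x, hx⟩ (mem_iUnion.2 ⟨0, mem_univ _⟩)
    exact ⟨y.1, ⟨y, hy, rfl⟩, io m g, congrArg Subtype.val hg⟩
  · right
    refine ⟨fun c => (f c).1, continuous_subtype_val.comp hf, fun c τ hτ => (f c).2 τ hτ, ?_⟩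
    rintro c d ⟨τ, hτ, hcd⟩
    obtain ⟨σ, rfl⟩ := io_surj m τ hτ
    exact h c d ⟨σ, Subtype.ext hcd⟩

end Pool.Agent.L7h75.GB
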